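import Pool.Agent.H198.CT2.Two
import Pool.Agent.H198.CT.Fam

set_option autoImplicit false

/-! The products `D E`. -/

open scoped Classical

namespace Pool.Agent.H198.CT2

open Finset
open Pool.Agent.Y703.CX (LamP lam)
open Pool.Agent.R419.CF (GdW SolW wt)
open Pool.Agent.R419.CF.NS (MD)
open Pool.Agent.Y703.CT (Cls NoSplit Base)
open Pool.Agent.H198.CT (mod_nine cube_free_part)

theorem assemble {D : ℕ} (hD : Base D) {p₀ : ℕ} (hp₀ : p₀.Prime) (hp₀3 : p₀ ≠ 3) (hp₀D : D < p₀)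
    (Q : ℕ → Prop) (hQ : ∀ p, Q p → p.Prime ∧ p₀ < p ∧ p % 9 = 1) {m : ℕ} (hm : m ≠ 0)
    (hmp : ∀ p : ℕ, p.Prime → p ∣ m → p = p₀ ∨ Q p) (hm3 : ¬ 3 ∣ m.factorization p₀) :
    ∃ E K : ℕ, K ≠ 0 ∧ m = E * K ^ 3 ∧ E ≠ 0 ∧ p₀ ∈ E.primeFactors ∧
      (∀ p ∈ E.primeFactors, p = p₀ ∨ Q p) ∧ Disjoint D.primeFactors E.primeFactors ∧
      (D * E).primeFactors = D.primeFactors ∪ E.primeFactors ∧ Base (D * E) ∧
      (D * E % 9 = D * p₀ % 9 ∨ D * E % 9 = D * p₀ ^ 2 % 9) ∧
      ∀ s ∈ D.primeFactors, wt (MD (D * E)) s = wt (MD D) s := by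
  obtain ⟨hD0, hD3, hDcf⟩ := hD
  obtain ⟨E, K, hE, hK, hEK, hfac⟩ := cube_free_part hm
  have hEm : E ∣ m := ⟨K ^ 3, hEK⟩
  have hEp : ∀ p ∈ E.primeFactors, p = p₀ ∨ Q p := fun p hp =>
    hmp p (Nat.prime_of_mem_primeFactors hp) ((Nat.dvd_of_mem_primeFactors hp).trans hEm)
  have hEp0 : ∀ p ∈ E.primeFactors, p₀ ≤ p := by
    intro p hp
    rcases hEp p hp with rfl | h
    · exact le_rfl
    · exact (hQ p h).2.1.le
  have hdisj : Disjoint D.primeFactors E.primeFactors := by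
    rw [Finset.disjoint_left]
    intro p hp hp'
    have g1 := Nat.le_of_dvd (Nat.pos_of_ne_zero hD0) (Nat.dvd_of_mem_primeFactors hp)
    have g2 := hEp0 p hp'
    omega
  have hpf : (D * E).primeFactors = D.primeFactors ∪ E.primeFactors :=
    Nat.primeFactors_mul hD0 hE
  have hv : E.factorization p₀ = 1 ∨ E.factorization p₀ = 2 := by
    rw [hfac]
    omega
  have hp₀E : p₀ ∈ E.primeFactors := by
    refine Nat.mem_primeFactors.2 ⟨hp₀, ?_, hE⟩
    by_contra h
    have g1 := Nat.factorization_eq_zero_of_not_dvd h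
    omega
  -- modulo nine
  have hE1 : E / p₀ ^ E.factorization p₀ ≠ 0 := (Nat.ordCompl_pos p₀ hE).ne'
  have hE9 : E / p₀ ^ E.factorization p₀ % 9 = 1 := by
    refine mod_nine hE1 fun p hp hpE => ?_
    have g1 : p ∣ E := hpE.trans (Nat.ordCompl_dvd E p₀)
    rcases hEp p (Nat.mem_primeFactors.2 ⟨hp, g1, hE⟩) with rfl | h
    · exact absurd hpE (Nat.not_dvd_ordCompl hp hE)
    · exact (hQ p h).2.2
  have hEE : p₀ ^ E.factorization p₀ * (E / p₀ ^ E.factorization p₀) = E :=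
    Nat.ordProj_mul_ordCompl_eq_self E p₀
  have hDE9 : D * E % 9 = D * p₀ ^ E.factorization p₀ % 9 := by
    conv_lhs => rw [← hEE, ← mul_assoc, Nat.mul_mod, hE9, mul_one, Nat.mod_mod]
  refine ⟨E, K, hK, hEK, hE, hp₀E, hEp, hdisj, hpf, ⟨mul_ne_zero hD0 hE, ?_, ?_⟩, ?_, ?_⟩
  · intro h3
    rcases (Nat.prime_three.dvd_mul).1 h3 with h | h
    · exact hD3 h
    · rcases hEp 3 (Nat.mem_primeFactors.2 ⟨Nat.prime_three, h, hE⟩) with h4 | h4
      · exact hp₀3 h4.symm
      · have := (hQ 3 h4).2.2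
        omega
  · intro p hp h3
    rw [hp.pow_dvd_iff_le_factorization (mul_ne_zero hD0 hE), Nat.factorization_mul hD0 hE,
      Finsupp.add_apply] at h3
    have g1 : ¬ 3 ≤ D.factorization p := fun h =>
      hDcf p hp ((hp.pow_dvd_iff_le_factorization hD0).2 h)
    have g2 : E.factorization p < 3 := by
      rw [hfac]
      exact Nat.mod_lt _ (by norm_num)
    by_cases hpD : p ∣ D
    · have g3 : E.factorization p = 0 := Nat.factorization_eq_zero_of_not_dvd fun h =>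
        Finset.disjoint_left.1 hdisj (Nat.mem_primeFactors.2 ⟨hp, hpD, hD0⟩)
          (Nat.mem_primeFactors.2 ⟨hp, h, hE⟩)
      omega
    · have g3 : D.factorization p = 0 := Nat.factorization_eq_zero_of_not_dvd hpD
      omega
  · rw [hDE9]
    rcases hv with h | h
    · left
      rw [h, pow_one]
    · right
      rw [h]
  · intro s hs
    have hsp := Nat.prime_of_mem_primeFactors hs
    have hsE : ¬ s ∣ E := fun h => Finset.disjoint_left.1 hdisj hs
      (Nat.mem_primeFactors.2 ⟨hsp, h, hE⟩)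
    have g1 : s ∈ MD (D * E) ↔ s ∈ MD D := by
      unfold MD
      rw [mem_filter, mem_filter]
      have g2 : s ^ 2 ∣ D * E ↔ s ^ 2 ∣ D := by
        constructor
        · intro h
          exact (Nat.Coprime.pow_left 2
            ((Nat.Prime.coprime_iff_not_dvd hsp).2 hsE)).dvd_of_dvd_mul_right h
        · intro h
          exact h.mul_right E
      rw [g2, hpf, mem_union]
      constructor
      · rintro ⟨-, h⟩
        exact ⟨hs, h⟩
      · rintro ⟨-, h⟩
        exact ⟨Or.inl hs, h⟩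
    unfold wt
    by_cases h : s ∈ MD D
    · rw [if_pos h, if_pos (g1.2 h)]
    · rw [if_neg h, if_neg fun h' => h (g1.1 h')]

end Pool.Agent.H198.CT2
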