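import Pool.Graph.R_pool_sql_team_seeded_707910d6.T2H26.CM.Rat

set_option autoImplicit false

/-! One more prime with prescribed cubic symbols. -/

open scoped Classical

namespace Pool.Agent.H198.CT2

open Pool.Agent.Y692.QS
open Pool.Agent.Y703.CX (LamP lam pp)
open Pool.Agent.Y715.T.Rec (cs)
open Pool.Agent.Y715.T.RecG (Pq)
open Pool.Agent.T2H26.CM

theorem extend (hL : LamP) {q : ℕ} (hq : q.Prime) (hq3 : q % 3 = 2) (S : Finset ℕ)
    (hS : ∀ s ∈ S, s.Prime ∧ s % 3 = 1) (a : ℕ → ZMod 3) (c : ZMod 3) (B : ℕ) :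
    ∃ p : ℕ, p.Prime ∧ B < p ∧ p % 9 = 1 + 3 * c.val ∧ lam p q ≠ 0 ∧
      ∀ s ∈ S, lam s p = a s ∧ lam p s = 0 := by
  have hqP : Pq (-(q : Ei)) := (hL.rec2 7 q (by norm_num) (by norm_num) hq hq3).1
  -- the values of the symbols
  have hval : ∃ ε : Ei → ZMod 3, ε (-(q : Ei)) = 1 ∧ ∀ s ∈ S, ε (pp s) = -a s ∧
      ε (star (pp s)) = a s := by
    let ε : Ei → ZMod 3 := fun x => if x = -(q : Ei) then 1 else
      if h : ∃ s ∈ S, pp s = x then -a h.choose else
      if h : ∃ s ∈ S, star (pp s) = x then a h.choose else 0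
    have hn : ∀ s ∈ S, nr (pp s) = s := fun s hs => (hL.ex s (hS s hs).1 (hS s hs).2).2
    have hn' : ∀ s ∈ S, nr (star (pp s)) = s := fun s hs => by rw [Pool.Agent.Y692.QS.nr_star]; exact hn s hs
    have hnq : nr (-(q : Ei)) = (q : ℤ) ^ 2 := by
      have h1 : nr (-(q : Ei)) = nr (q : Ei) := by
        unfold nr
        rw [QuadraticAlgebra.re_neg, QuadraticAlgebra.im_neg]
        ring
      rw [h1, Pool.Agent.Y692.QS.nr_nat]
    have hne : ∀ s ∈ S, (s : ℤ) ≠ (q : ℤ) ^ 2 := by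
      intro s hs h
      have h1 : s = q ^ 2 := by exact_mod_cast h
      have h2 := (hS s hs).1
      rw [h1] at h2
      exact Nat.Prime.not_prime_pow le_rfl h2
    refine ⟨ε, if_pos rfl, fun s hs => ⟨?_, ?_⟩⟩
    · show (if pp s = -(q : Ei) then 1 else _) = _
      rw [if_neg fun h => hne s hs (by rw [← hn s hs, h, hnq])]
      have h : ∃ s' ∈ S, pp s' = pp s := ⟨s, hs, rfl⟩
      rw [dif_pos h]
      have h1 : h.choose = s := by
        have h2 := hn _ h.choose_spec.1
        rw [h.choose_spec.2, hn s hs] at h2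
        exact_mod_cast h2.symm
      rw [h1]
    · show (if star (pp s) = -(q : Ei) then 1 else _) = _
      rw [if_neg fun h => hne s hs (by rw [← hn' s hs, h, hnq])]
      rw [dif_neg]
      · have h : ∃ s' ∈ S, star (pp s') = star (pp s) := ⟨s, hs, rfl⟩
        rw [dif_pos h]
        have h1 : h.choose = s := by
          have h2 := hn' _ h.choose_spec.1
          rw [h.choose_spec.2, hn' s hs] at h2
          exact_mod_cast h2.symm
        rw [h1]
      · rintro ⟨s', hs', h⟩
        have h1 := hn _ hs'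
        rw [h, hn' s hs] at h1
        have h2 : s = s' := by exact_mod_cast h1
        subst h2
        have hP := (hL.ex s (hS s hs).1 (hS s hs).2).1
        exact star_ne (by rw [hn s hs]; exact (hS s hs).1) (by
          rw [hn s hs]
          have h3 := (hS s hs).1.two_le
          have h4 := (hS s hs).2
          have h5 : (s : ℤ).natAbs = s := rfl
          omega) h.symm
  obtain ⟨ε, hε1, hε2⟩ := hval
  let P0 : Finset Ei := insert (-(q : Ei)) (S.image pp ∪ S.image fun s => star (pp s))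
  obtain ⟨π, hπ, hπp, hπB, hπ9, hπε⟩ := exists_q P0 (by
    intro x hx
    rw [Finset.mem_insert, Finset.mem_union, Finset.mem_image, Finset.mem_image] at hx
    rcases hx with rfl | ⟨s, hs, rfl⟩ | ⟨s, hs, rfl⟩
    · exact hqP
    · exact (hL.ex s (hS s hs).1 (hS s hs).2).1
    · exact Pool.Agent.Y350.CT.pq_star (hL.ex s (hS s hs).1 (hS s hs).2).1) ε c
    (max B (max q (S.sup id)))
  obtain ⟨p, hp⟩ : ∃ p : ℕ, nr π = p := ⟨(nr π).natAbs, (Int.natAbs_of_nonneg (nr_nonneg _)).symm⟩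
  have hpn : (nr π).natAbs = p := by rw [hp]; rfl
  rw [hpn] at hπp hπB
  have hp9 : p % 9 = 1 + 3 * c.val := by
    rw [hp] at hπ9
    exact_mod_cast hπ9
  have hp3 : p % 3 = 1 := by omega
  have hBp : B < p := lt_of_le_of_lt (le_max_left _ _) hπB
  have hqp : q < p := lt_of_le_of_lt ((le_max_left _ _).trans (le_max_right _ _)) hπB
  have hSp : ∀ s ∈ S, s < p := fun s hs => lt_of_le_of_lt
    ((Finset.le_sup (f := id) hs).trans ((le_max_right _ _).trans (le_max_right _ _))) hπB
  have hqd : ¬ p ∣ q := fun h => absurd (Nat.le_of_dvd hq.pos h) (by omega)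
  have c1 : cs π (-(q : Ei)) = 1 := by
    rw [hπε _ (Finset.mem_insert_self _ _)]
    exact hε1
  have c2 : ∀ s ∈ S, cs π (pp s) = -a s := fun s hs => by
    rw [hπε _ (Finset.mem_insert_of_mem (Finset.mem_union_left _ (Finset.mem_image_of_mem _ hs)))]
    exact (hε2 s hs).1
  have c3 : ∀ s ∈ S, cs π (star (pp s)) = a s := fun s hs => by
    rw [hπε _ (Finset.mem_insert_of_mem (Finset.mem_union_right _
      (Finset.mem_image.2 ⟨s, hs, rfl⟩)))]
    exact (hε2 s hs).2
  refine ⟨p, hπp, hBp, hp9, ?_, ?_⟩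
  · obtain ⟨s, hs, h⟩ := lam_or hL hπp hp3 hπ hp
    rw [h q hqd, ← Pool.Agent.Y715.T.RecG.cs_neg hπ.prime hπ.norm (not_dvd_nat hπp hp hqd), c1,
      mul_one]
    rintro rfl
    exact absurd hs (by decide)
  · intro s hs
    have hsp : s ≠ p := (hSp s hs).ne
    obtain ⟨e1, e2⟩ := hL.ex s (hS s hs).1 (hS s hs).2
    have hne : nr π ≠ nr (pp s) := by
      rw [hp, e2]
      intro h
      exact hsp (by exact_mod_cast h.symm)
    have n1 : ¬ π ∣ pp s := Pool.Agent.Y715.T.RecG.not_dvd e1 hπ hne.symm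
    have n2 : ¬ π ∣ star (pp s) := Pool.Agent.Y715.T.RecG.not_dvd
      (Pool.Agent.Y350.CT.pq_star e1) hπ (by rw [Pool.Agent.Y692.QS.nr_star]; exact hne.symm)
    have hxy : cs (pp p) (pp s) = -a s ∧ cs (pp p) (star (pp s)) = a s := by
      rcases pp_or hL hπp hp3 hπ hp with h | h
      · rw [h]
        exact ⟨c2 s hs, c3 s hs⟩
      · rw [h]
        constructor
        · have h6 := Pool.Agent.Y350.CT.cs_star hπ n2
          rw [star_star] at h6
          rw [h6, c3 s hs]
        · have h6 := Pool.Agent.Y350.CT.cs_star hπ n1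
          rw [h6, c2 s hs, neg_neg]
    obtain ⟨r1, r2, -⟩ := hL.rec1 p s hπp hp3 (hS s hs).1 (hS s hs).2 hsp.symm
    rw [r1, r2, hxy.1, hxy.2]
    exact ⟨by
      have h7 : ∀ x : ZMod 3, -x - x = x := by decide
      exact h7 _, neg_add_cancel _⟩

end Pool.Agent.H198.CT2
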