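import Pool.Agent.H198.CT2.Prm

set_option autoImplicit false

/-! The two cases. -/

open scoped Classical

namespace Pool.Agent.H198.CT2

open Finset
open Pool.Agent.Y703.CX (LamP lam)
open Pool.Agent.R419.CF (GdW SolW wt)
open Pool.Agent.R419.CF.NS (MD)
open Pool.Agent.Y703.CT (Cls NoSplit Base)
open Pool.Agent.H198.CT (Gr gr_iff gr_pair gr_infinite exists_a nosplit_ext)

theorem mod_three {E : ℕ} (hE : E ≠ 0) (h : ∀ p : ℕ, p.Prime → p ∣ E → p % 3 = 1) : E % 3 = 1 := by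
  have h1 : ((E : ℕ) : ZMod 3) = 1 := by
    rw [← Nat.factorization_prod_pow_eq_self hE]
    unfold Finsupp.prod
    rw [Nat.cast_prod]
    refine prod_eq_one fun p hp => ?_
    have h2 := h p (Nat.prime_of_mem_primeFactors hp) (Nat.dvd_of_mem_primeFactors hp)
    have h3 : ((p : ℕ) : ZMod 3) = ((1 : ℕ) : ZMod 3) := by
      rw [ZMod.natCast_eq_natCast_iff]
      exact h2
    rw [Nat.cast_pow, h3, Nat.cast_one, one_pow]
  have h2 : ((E : ℕ) : ZMod 3) = ((1 : ℕ) : ZMod 3) := by rw [h1, Nat.cast_one]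
  rw [ZMod.natCast_eq_natCast_iff] at h2
  exact h2

/-- the conclusion -/
def Concl (D p₀ : ℕ) (P : Set ℕ) : Prop :=
  ∀ m : ℕ, m ≠ 0 → (∀ p : ℕ, p.Prime → p ∣ m → p = p₀ ∨ p ∈ P) →
    ¬ 3 ∣ m.factorization p₀ → ∃ E K : ℕ, K ≠ 0 ∧ m = E * K ^ 3 ∧ Cls (D * E) ∧
      NoSplit (D * E) ∧ p₀ ∣ E

theorem case_one (hL : LamP) {D : ℕ} (hB : Base D) {q : ℕ} (hq : q.Prime) (hq3 : q % 3 = 2)
    (hqD : q ∣ D) (hqu : ∀ p : ℕ, p.Prime → p ∣ D → p ≠ q → p % 3 = 1) (B : ℕ) :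
    ∃ (p₀ : ℕ) (P : Set ℕ), p₀.Prime ∧ B < p₀ ∧ P.Infinite ∧
      (∀ p ∈ P, p.Prime ∧ p₀ < p ∧ p % 9 = 1) ∧ PrimrecPred (fun p => p ∈ P) ∧
      Concl D p₀ P := by
  have hD0 := hB.1
  have hD3 := hB.2.1
  have hqm : q ∈ D.primeFactors := Nat.mem_primeFactors.2 ⟨hq, hqD, hD0⟩
  have h1 : ∀ s ∈ D.primeFactors, s ≠ q → s % 3 = 1 := fun s hs hsq =>
    hqu s (Nat.prime_of_mem_primeFactors hs) (Nat.dvd_of_mem_primeFactors hs) hsq
  obtain ⟨a, ha⟩ := exists_a (MD D) D.primeFactors q hqm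
  have hT : ∀ s ∈ D.primeFactors.erase q, s.Prime ∧ s % 3 = 1 := fun s hs =>
    ⟨Nat.prime_of_mem_primeFactors (mem_of_mem_erase hs),
      h1 s (mem_of_mem_erase hs) (ne_of_mem_erase hs)⟩
  obtain ⟨c, hc⟩ : ∃ c : ZMod 3, ((D % 9 = 1 ∨ D % 9 = 8) ∧ c.val = 1) ∨
      (D % 9 ≠ 1 ∧ D % 9 ≠ 8 ∧ c.val = 0) := by
    by_cases h : D % 9 = 1 ∨ D % 9 = 8
    · exact ⟨1, Or.inl ⟨h, rfl⟩⟩
    · exact ⟨0, Or.inr ⟨by omega, by omega, rfl⟩⟩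
  obtain ⟨p₀, hp, hpB, hp9, hpq, hpS⟩ := extend hL hq hq3 (D.primeFactors.erase q) hT a c (max B D)
  have hp₀D : D < p₀ := lt_of_le_of_lt (le_max_right _ _) hpB
  have hp3 : p₀ % 3 = 1 := by
    rcases hc with ⟨-, h⟩ | ⟨-, -, h⟩ <;> rw [h] at hp9 <;> omega
  let S := insert p₀ (D.primeFactors.erase q)
  have hS : ∀ s ∈ S, s.Prime ∧ s % 3 = 1 := by
    intro s hs
    rcases mem_insert.1 hs with rfl | hs
    · exact ⟨hp, hp3⟩
    · exact hT s hs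
  have hGr : ∀ p, Gr q S p₀ p → p.Prime ∧ p₀ < p ∧ p % 9 = 1 := by
    intro p hp
    obtain ⟨⟨g1, g2, g3, -⟩, -⟩ := (gr_iff _ _ _ _).1 hp
    exact ⟨g1, g2, g3⟩
  refine ⟨p₀, {p | Gr q S p₀ p}, hp, lt_of_le_of_lt (le_max_left _ _) hpB,
    gr_infinite hL hq hq3 S hS p₀, fun p hp => hGr p hp, ?_, fun m hm hmp hm3 => ?_⟩
  · refine gr_primrec hL S p₀ hq.pos
      ((Nat.le_of_dvd (Nat.pos_of_ne_zero hD0) hqD).trans hp₀D.le) fun s hs => ?_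
    refine ⟨(hS s hs).1, (hS s hs).2, ?_⟩
    rcases mem_insert.1 hs with rfl | hs
    · exact le_rfl
    · exact (Nat.le_of_dvd (Nat.pos_of_ne_zero hD0)
        (Nat.dvd_of_mem_primeFactors (mem_of_mem_erase hs))).trans hp₀D.le
  obtain ⟨E, K, hK, hEK, hE, hp₀E, hEp, hdisj, hpf, hbase, h9, hwt⟩ := assemble hB hp
    (by rintro rfl; omega) hp₀D (Gr q S p₀) hGr hm hmp hm3
  have hcls : Cls (D * E) := by
    have g0 : D * E % 9 ≠ 1 ∧ D * E % 9 ≠ 8 := by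
      rw [Nat.mul_mod D p₀, Nat.mul_mod D (p₀ ^ 2), Nat.pow_mod, hp9] at h9
      have g1 : D % 9 < 9 := Nat.mod_lt _ (by norm_num)
      have g2 : D % 3 ≠ 0 := fun h => hD3 (Nat.dvd_of_mod_eq_zero h)
      rcases hc with ⟨h, h'⟩ | ⟨h, h'', h'⟩
      · rw [h'] at h9
        rcases h with h | h <;> rw [h] at h9 <;> norm_num at h9 <;> omega
      · rw [h'] at h9
        norm_num at h9
        omega
    refine ⟨hbase, g0.1, g0.2, q, hq, hq3, hqD.mul_right E, ?_⟩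
    intro p hp' hpd hpq'
    rcases (hp'.dvd_mul).1 hpd with h | h
    · exact hqu p hp' h hpq'
    · rcases hEp p (Nat.mem_primeFactors.2 ⟨hp', h, hE⟩) with rfl | hg
      · exact hp3
      · have := (hGr p hg).2.2
        omega
  refine ⟨E, K, hK, hEK, hcls, ?_, Nat.dvd_of_mem_primeFactors hp₀E⟩
  refine nosplit_ext hL hcls hpf hdisj hwt hqm h1 a ha ?_ hp₀E ?_
  · intro p hpE
    rcases hEp p hpE with rfl | hg
    · refine ⟨hp3, hpq, fun s hs hsq => (hpS s (mem_erase.2 ⟨hsq, hs⟩)).2, fun p' hp' hne => ?_⟩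
      rcases hEp p' hp' with rfl | hg'
      · exact absurd rfl hne
      · exact (((gr_iff _ _ _ _).1 hg').1.2.2.2.2 p (mem_insert_self _ _)).1
    · obtain ⟨⟨g1, g2, g3, g4, g5⟩, g6⟩ := (gr_iff _ _ _ _).1 hg
      refine ⟨by omega, g4, fun s hs hsq => (g5 s (mem_insert_of_mem (mem_erase.2 ⟨hsq, hs⟩))).2,
        fun p' hp' hne => ?_⟩
      rcases hEp p' hp' with rfl | hg'
      · exact (g5 p' (mem_insert_self _ _)).2
      · exact gr_pair hg hg' hne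
  · intro s hs hsq
    refine ⟨(hpS s (mem_erase.2 ⟨hsq, hs⟩)).1, fun p hpE hne => ?_⟩
    rcases hEp p hpE with rfl | hg
    · exact absurd rfl hne
    · exact (((gr_iff _ _ _ _).1 hg).1.2.2.2.2 s (mem_insert_of_mem (mem_erase.2 ⟨hsq, hs⟩))).1

theorem case_two (hL : LamP) {D : ℕ} (hB : Base D) (hqu : ∀ p : ℕ, p.Prime → p ∣ D → p % 3 = 1)
    (B : ℕ) :
    ∃ (p₀ : ℕ) (P : Set ℕ), p₀.Prime ∧ B < p₀ ∧ P.Infinite ∧
      (∀ p ∈ P, p.Prime ∧ p₀ < p ∧ p % 9 = 1) ∧ PrimrecPred (fun p => p ∈ P) ∧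
      Concl D p₀ P := by
  have hD0 := hB.1
  have h1 : ∀ s ∈ D.primeFactors, s % 3 = 1 := fun s hs =>
    hqu s (Nat.prime_of_mem_primeFactors hs) (Nat.dvd_of_mem_primeFactors hs)
  have hS : ∀ s ∈ D.primeFactors, s.Prime ∧ s % 3 = 1 := fun s hs =>
    ⟨Nat.prime_of_mem_primeFactors hs, h1 s hs⟩
  have hD1 := mod_three hD0 hqu
  obtain ⟨a, ha⟩ := exists_a2 (MD D) D.primeFactors
  obtain ⟨c, hc9, hc⟩ : ∃ c : ℕ, Nat.Coprime c 9 ∧ ((D % 9 = 1 ∧ c = 2) ∨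
      (D % 9 = 4 ∧ c = 8) ∨ (D % 9 = 7 ∧ c = 8)) := by
    by_cases h : D % 9 = 1
    · exact ⟨2, by norm_num, Or.inl ⟨h, rfl⟩⟩
    · exact ⟨8, by norm_num, Or.inr (by omega)⟩
  obtain ⟨p₀, hp, hpB, hp9, hpS⟩ := extend_two hL D.primeFactors hS a c hc9 (max B D)
  have hp9' : p₀ % 9 = c % 9 := hp9
  have hp₀D : D < p₀ := lt_of_le_of_lt (le_max_right _ _) hpB
  have hp3 : p₀ % 3 = 2 := by
    rcases hc with ⟨-, rfl⟩ | ⟨-, rfl⟩ | ⟨-, rfl⟩ <;> omega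
  have hGr : ∀ p, Gr p₀ D.primeFactors p₀ p → p.Prime ∧ p₀ < p ∧ p % 9 = 1 := by
    intro p hp
    obtain ⟨⟨g1, g2, g3, -⟩, -⟩ := (gr_iff _ _ _ _).1 hp
    exact ⟨g1, g2, g3⟩
  refine ⟨p₀, {p | Gr p₀ D.primeFactors p₀ p}, hp, lt_of_le_of_lt (le_max_left _ _) hpB,
    gr_infinite hL hp hp3 D.primeFactors hS p₀, fun p hp => hGr p hp, ?_, fun m hm hmp hm3 => ?_⟩
  · exact gr_primrec hL D.primeFactors p₀ hp.pos le_rfl fun s hs =>
      ⟨(hS s hs).1, (hS s hs).2, (Nat.le_of_dvd (Nat.pos_of_ne_zero hD0)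
        (Nat.dvd_of_mem_primeFactors hs)).trans hp₀D.le⟩
  obtain ⟨E, K, hK, hEK, hE, hp₀E, hEp, hdisj, hpf, hbase, h9, hwt⟩ := assemble hB hp
    (by rintro rfl; omega) hp₀D (Gr p₀ D.primeFactors p₀) hGr hm hmp hm3
  have hcls : Cls (D * E) := by
    have g0 : D * E % 9 ≠ 1 ∧ D * E % 9 ≠ 8 := by
      rw [Nat.mul_mod D p₀, Nat.mul_mod D (p₀ ^ 2), Nat.pow_mod, hp9'] at h9
      rcases hc with ⟨h, rfl⟩ | ⟨h, rfl⟩ | ⟨h, rfl⟩ <;> rw [h] at h9 <;> norm_num at h9 <;> omega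
    refine ⟨hbase, g0.1, g0.2, p₀, hp, hp3, (Nat.dvd_of_mem_primeFactors hp₀E).mul_left D, ?_⟩
    intro p hp' hpd hpq'
    rcases (hp'.dvd_mul).1 hpd with h | h
    · exact hqu p hp' h
    · rcases hEp p (Nat.mem_primeFactors.2 ⟨hp', h, hE⟩) with rfl | hg
      · exact absurd rfl hpq'
      · have := (hGr p hg).2.2
        omega
  refine ⟨E, K, hK, hEK, hcls, ?_, Nat.dvd_of_mem_primeFactors hp₀E⟩
  refine nosplit_ext2 hL hcls hpf hdisj hwt hp₀E h1 a ha ?_ ?_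
  · intro p hpE hpp
    rcases hEp p hpE with rfl | hg
    · exact absurd rfl hpp
    · obtain ⟨⟨g1, g2, g3, g4, g5⟩, g6⟩ := (gr_iff _ _ _ _).1 hg
      refine ⟨by omega, g4, fun s hs => (g5 s hs).2, fun p' hp' hne hne' => ?_⟩
      rcases hEp p' hp' with rfl | hg'
      · exact absurd rfl hne'
      · exact gr_pair hg hg' hne
  · intro s hs
    refine ⟨hpS s hs, fun p hpE hne => ?_⟩
    rcases hEp p hpE with rfl | hg
    · exact absurd rfl hne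
    · exact (((gr_iff _ _ _ _).1 hg).1.2.2.2.2 s hs).1

theorem main (hL : LamP) {D : ℕ} (hB : Base D)
    (hu : ∀ p q : ℕ, p.Prime → q.Prime → p ∣ D → q ∣ D → p % 3 = 2 → q % 3 = 2 → p = q) (B : ℕ) :
    ∃ (p₀ : ℕ) (P : Set ℕ), p₀.Prime ∧ B < p₀ ∧ P.Infinite ∧
      (∀ p ∈ P, p.Prime ∧ p₀ < p ∧ p % 9 = 1) ∧ PrimrecPred (fun p => p ∈ P) ∧
      Concl D p₀ P := by
  have h3 : ∀ p : ℕ, p.Prime → p ∣ D → p % 3 = 1 ∨ p % 3 = 2 := by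
    intro p hp hpD
    have h4 : p % 3 ≠ 0 := fun h => by
      have h5 := (Nat.prime_dvd_prime_iff_eq Nat.prime_three hp).1 (Nat.dvd_of_mod_eq_zero h)
      rw [← h5] at hpD
      exact hB.2.1 hpD
    omega
  by_cases h : ∃ q : ℕ, q.Prime ∧ q % 3 = 2 ∧ q ∣ D
  · obtain ⟨q, hq, hq3, hqD⟩ := h
    refine case_one hL hB hq hq3 hqD (fun p hp hpD hne => ?_) B
    rcases h3 p hp hpD with h4 | h4
    · exact h4
    · exact absurd (hu p q hp hq hpD hqD h4 hq3) hne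
  · refine case_two hL hB (fun p hp hpD => ?_) B
    rcases h3 p hp hpD with h4 | h4
    · exact h4
    · exact absurd ⟨p, hp, h4, hpD⟩ h

end Pool.Agent.H198.CT2
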