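import Pool.Agent.H198.CT2.Asm
import Pool.Graph.R_seed8.R486.TC.Cmp

set_option autoImplicit false

/-! The greedy set of primes is primitive recursive. -/

open scoped Classical

namespace Pool.Agent.H198.CT2

open Pool.Agent.Y703.CX (LamP lam)
open Pool.Agent.H198.CT (Gr gr_iff)
open Pool.Agent.R486.TC (ball bex imp pdvd peq pne pmul pcube pmod pprime)

/-- `n` is a cube modulo `p` -/
def Cu (p n : ℕ) : Prop := ∃ x < p, x ^ 3 % p = n % p

theorem cu_iff (hL : LamP) {p n : ℕ} (hp : p.Prime) (hp1 : p % 3 = 1) (hn : ¬ p ∣ n) :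
    lam p n = 0 ↔ Cu p n := by
  rw [hL.cube p n hp hp1 hn]
  constructor
  · rintro ⟨x, hx⟩
    refine ⟨(x % p).toNat, ?_, ?_⟩
    · have h1 := Int.emod_lt_of_pos x (by exact_mod_cast hp.pos : (0 : ℤ) < p)
      have h2 := Int.emod_nonneg x (by exact_mod_cast hp.ne_zero : (p : ℤ) ≠ 0)
      omega
    · have h2 := Int.emod_nonneg x (by exact_mod_cast hp.ne_zero : (p : ℤ) ≠ 0)
      have h3 : (((x % p).toNat : ℕ) : ℤ) = x % p := Int.toNat_of_nonneg h2
      have h4 : ((((x % p).toNat ^ 3 : ℕ) : ℤ)) ≡ (n : ℤ) [ZMOD p] := by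
        push_cast
        rw [h3]
        exact ((Int.mod_modEq x p).pow 3).trans (Int.modEq_iff_dvd.2 hx)
      exact (Int.natCast_modEq_iff.1 h4)
  · rintro ⟨x, -, hx⟩
    refine ⟨x, ?_⟩
    have h4 : ((x ^ 3 : ℕ) : ℤ) ≡ (n : ℤ) [ZMOD p] := Int.natCast_modEq_iff.2 hx
    have h5 := Int.modEq_iff_dvd.1 h4
    push_cast at h5
    exact h5

theorem pcu {α : Type} [Primcodable α] {f g : α → ℕ} (hf : Primrec f) (hg : Primrec g) :
    PrimrecPred (fun a => Cu (f a) (g a)) := by
  refine bex hf (R := fun x a => x ^ 3 % f a = g a % f a) ?_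
  exact peq (pmod (pcube Primrec.fst) (hf.comp Primrec.snd))
    (pmod (hg.comp Primrec.snd) (hf.comp Primrec.snd))

/-- the step of the recursion -/
def Bd (q : ℕ) (S : List ℕ) (B : ℕ) (l : List Bool) : Prop :=
  (l.length.Prime ∧ B < l.length ∧ l.length % 9 = 1) ∧ (¬ Cu l.length q ∧
    (∀ s ∈ S, Cu s l.length ∧ Cu l.length s)) ∧
    ∀ r < l.length, (l.getD r false = true → Cu r l.length ∧ Cu l.length r)

theorem pbd (q : ℕ) (S : List ℕ) (B : ℕ) : PrimrecPred (Bd q S B) := by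
  have hl : Primrec (fun l : List Bool => l.length) := Primrec.list_length
  refine ((pprime hl).and ((Primrec.nat_lt.comp (Primrec.const B) hl).and
    (peq (pmod hl (Primrec.const 9)) (Primrec.const 1)))).and
    (((pcu hl (Primrec.const q)).not.and ?_).and ?_)
  · have hR : PrimrecRel (fun (s : ℕ) (l : List Bool) => Cu s l.length ∧ Cu l.length s) :=
      (pcu Primrec.fst (hl.comp Primrec.snd)).and (pcu (hl.comp Primrec.snd) Primrec.fst)
    exact hR.forall_mem_list.comp (Primrec.const S) Primrec.id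
  · refine ball hl (R := fun r l => l.getD r false = true → Cu r l.length ∧ Cu l.length r) ?_
    refine imp ?_ ((pcu Primrec.fst (hl.comp Primrec.snd)).and
      (pcu (hl.comp Primrec.snd) Primrec.fst))
    exact Primrec.eq.comp ((Primrec.list_getD false).comp Primrec.snd Primrec.fst)
      (Primrec.const true)

theorem gr_bd (hL : LamP) {q : ℕ} (S : Finset ℕ) (B : ℕ) (hq0 : 0 < q) (hq : q ≤ B)
    (hS : ∀ s ∈ S, s.Prime ∧ s % 3 = 1 ∧ s ≤ B) (n : ℕ) :
    Bd q S.toList B ((List.range n).map fun r => decide (Gr q S B r)) ↔ Gr q S B n := by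
  unfold Bd
  rw [gr_iff, List.length_map, List.length_range]
  constructor
  · rintro ⟨⟨h1, h2, h3⟩, ⟨h4, h5⟩, h6⟩
    have hn3 : n % 3 = 1 := by omega
    have hqn : ¬ n ∣ q := fun h => absurd (Nat.le_of_dvd hq0 h) (by omega)
    refine ⟨⟨h1, h2, h3, fun h => h4 ((cu_iff hL h1 hn3 hqn).1 h), fun s hs => ?_⟩,
      fun r hr hg => ?_⟩
    · obtain ⟨g1, g2, g3⟩ := hS s hs
      obtain ⟨g4, g5⟩ := h5 s (Finset.mem_toList.2 hs)
      have hsn : ¬ s ∣ n := fun h => by
        have := (Nat.prime_dvd_prime_iff_eq g1 h1).1 h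
        omega
      have hns : ¬ n ∣ s := fun h => by
        have := (Nat.prime_dvd_prime_iff_eq h1 g1).1 h
        omega
      exact ⟨(cu_iff hL g1 g2 hsn).2 g4, (cu_iff hL h1 hn3 hns).2 g5⟩
    · obtain ⟨⟨g1, g2, g3, -⟩, -⟩ := (gr_iff _ _ _ _).1 hg
      have e1 : ((List.range n).map fun r => decide (Gr q S B r)).getD r false = true := by
        rw [List.getD_eq_getElem _ _ (by simpa using hr)]
        simpa using hg
      obtain ⟨g4, g5⟩ := h6 r hr e1
      have hrn : ¬ r ∣ n := fun h => by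
        have := (Nat.prime_dvd_prime_iff_eq g1 h1).1 h
        omega
      have hnr : ¬ n ∣ r := fun h => by
        have := (Nat.prime_dvd_prime_iff_eq h1 g1).1 h
        omega
      exact ⟨(cu_iff hL g1 (by omega) hrn).2 g4, (cu_iff hL h1 hn3 hnr).2 g5⟩
  · rintro ⟨⟨h1, h2, h3, h4, h5⟩, h6⟩
    have hn3 : n % 3 = 1 := by omega
    have hqn : ¬ n ∣ q := fun h => absurd (Nat.le_of_dvd hq0 h) (by omega)
    refine ⟨⟨h1, h2, h3⟩, ⟨fun h => h4 ((cu_iff hL h1 hn3 hqn).2 h), fun s hs => ?_⟩,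
      fun r hr hg => ?_⟩
    · have hs' := Finset.mem_toList.1 hs
      obtain ⟨g1, g2, g3⟩ := hS s hs'
      obtain ⟨g4, g5⟩ := h5 s hs'
      have hsn : ¬ s ∣ n := fun h => by
        have := (Nat.prime_dvd_prime_iff_eq g1 h1).1 h
        omega
      have hns : ¬ n ∣ s := fun h => by
        have := (Nat.prime_dvd_prime_iff_eq h1 g1).1 h
        omega
      exact ⟨(cu_iff hL g1 g2 hsn).1 g4, (cu_iff hL h1 hn3 hns).1 g5⟩
    · rw [List.getD_eq_getElem _ _ (by simpa using hr)] at hg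
      have hg' : Gr q S B r := by simpa using hg
      obtain ⟨⟨g1, g2, g3, -⟩, -⟩ := (gr_iff _ _ _ _).1 hg'
      obtain ⟨g4, g5⟩ := h6 r hr hg'
      have hrn : ¬ r ∣ n := fun h => by
        have := (Nat.prime_dvd_prime_iff_eq g1 h1).1 h
        omega
      have hnr : ¬ n ∣ r := fun h => by
        have := (Nat.prime_dvd_prime_iff_eq h1 g1).1 h
        omega
      exact ⟨(cu_iff hL g1 (by omega) hrn).1 g4, (cu_iff hL h1 hn3 hnr).1 g5⟩

theorem gr_primrec (hL : LamP) {q : ℕ} (S : Finset ℕ) (B : ℕ) (hq0 : 0 < q) (hq : q ≤ B)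
    (hS : ∀ s ∈ S, s.Prime ∧ s % 3 = 1 ∧ s ≤ B) : PrimrecPred (fun p => Gr q S B p) := by
  have h1 : Primrec (fun l : List Bool => decide (Bd q S.toList B l)) := by
    obtain ⟨i, hi⟩ := pbd q S.toList B
    exact hi.of_eq fun l => by congr
  have h2 : Primrec₂ (fun (_ : Unit) (n : ℕ) => decide (Gr q S B n)) := by
    refine Primrec.nat_strong_rec (fun (_ : Unit) (n : ℕ) => decide (Gr q S B n))
      (g := fun _ l => some (decide (Bd q S.toList B l))) ?_ ?_
    · exact Primrec.option_some.comp (h1.comp Primrec.snd)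
    · intro _ n
      exact congrArg some (decide_eq_decide.2 (gr_bd hL S B hq0 hq hS n))
  exact ⟨fun _ => Classical.propDecidable _, h2.comp (Primrec.const ()) Primrec.id⟩

end Pool.Agent.H198.CT2
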