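import Pool.Agent.H198.CT2.Ext
import Pool.Agent.H198.CT.Sys
import Mathlib.NumberTheory.LSeries.PrimesInAP

set_option autoImplicit false

/-! A new prime that is two modulo three. -/

open scoped Classical

namespace Pool.Agent.H198.CT2

open Finset
open Pool.Agent.Y692.QS
open Pool.Agent.Y703.CX (LamP lam pp)
open Pool.Agent.R419.CF (GdW SolW wt)
open Pool.Agent.R419.CF.NS (MD)
open Pool.Agent.Y703.CT (Cls NoSplit Base)
open Pool.Agent.H198.CT (wt_cases wt_ne exists_a)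

theorem lam_congr (hL : LamP) {s m n : ℕ} (hs : s.Prime) (hs3 : s % 3 = 1) (h : m ≡ n [MOD s])
    (hm : ¬ s ∣ m) : lam s m = lam s n := by
  obtain ⟨h1, h2⟩ := hL.ex s hs hs3
  unfold lam
  refine Pool.Agent.Y715.T.RecG.cs_congr h1.prime h1.norm
    (Pool.Agent.T2H26.CM.not_dvd_nat hs h2 hm) ?_
  have h3 : (s : ℤ) ∣ (m : ℤ) - n := by
    have h4 := (Nat.modEq_iff_dvd.1 h.symm)
    exact h4
  obtain ⟨k, hk⟩ := h3
  have h5 : ((m : Ei) - (n : Ei)) = ((s : ℕ) : Ei) * ((k : ℤ) : Ei) := by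
    have h6 := congrArg (fun x : ℤ => (x : Ei)) hk
    simp only [Int.cast_sub, Int.cast_mul, Int.cast_natCast] at h6
    exact h6
  rw [h5]
  refine Dvd.dvd.mul_right ?_ _
  have h7 : ((s : ℕ) : Ei) = pp s * star (pp s) := by
    rw [mul_star, h2]
    norm_cast
  rw [h7]
  exact dvd_mul_right _ _

theorem extend_two (hL : LamP) (S : Finset ℕ) (hS : ∀ s ∈ S, s.Prime ∧ s % 3 = 1)
    (a : ℕ → ZMod 3) (c : ℕ) (hc : Nat.Coprime c 9) (B : ℕ) :
    ∃ p : ℕ, p.Prime ∧ B < p ∧ p ≡ c [MOD 9] ∧ ∀ s ∈ S, lam s p = a s := by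
  obtain ⟨r, hr, hrB, -, -, hrS⟩ := extend hL Nat.prime_two (by norm_num) S hS a 0
    (S.sup id)
  have hrS' : ∀ s ∈ S, s < r := fun s hs => lt_of_le_of_lt (Finset.le_sup (f := id) hs) hrB
  let M := ∏ s ∈ S, s
  have hM0 : M ≠ 0 := Finset.prod_ne_zero_iff.2 fun s hs => (hS s hs).1.ne_zero
  have hrM : Nat.Coprime r M := Nat.Coprime.prod_right fun s hs =>
    (Nat.coprime_primes hr (hS s hs).1).2 (hrS' s hs).ne'
  have h9 : Nat.Coprime M 9 := by
    refine Nat.Coprime.prod_left fun s hs => ?_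
    have h1 : Nat.Coprime s 3 := (Nat.coprime_primes (hS s hs).1 Nat.prime_three).2 (by
      intro h
      have := (hS s hs).2
      rw [h] at this
      omega)
    exact Nat.Coprime.pow_right 2 h1
  obtain ⟨k, hk1, hk2⟩ := Nat.chineseRemainder h9 r c
  have hkM : Nat.Coprime k M := by
    have h1 := hk1.gcd_eq
    unfold Nat.Coprime at hrM ⊢
    rw [h1]
    exact hrM
  have hk9 : Nat.Coprime k 9 := by
    have h1 := hk2.gcd_eq
    unfold Nat.Coprime at hc ⊢
    rw [h1]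
    exact hc
  obtain ⟨p, hpB, hp, hpk⟩ := Nat.forall_exists_prime_gt_and_modEq B
    (mul_ne_zero hM0 (by norm_num : 9 ≠ 0)) (Nat.Coprime.mul_right hkM hk9)
  refine ⟨p, hp, hpB, (hpk.of_mul_left M).trans hk2, fun s hs => ?_⟩
  have h1 : p ≡ r [MOD s] :=
    ((hpk.of_mul_right 9).trans hk1).of_dvd (Finset.dvd_prod_of_mem _ hs)
  have h2 : ¬ s ∣ r := fun h => (hrS' s hs).ne ((Nat.prime_dvd_prime_iff_eq (hS s hs).1 hr).1 h)
  rw [← (hrS s hs).1]
  exact (lam_congr hL (hS s hs).1 (hS s hs).2 h1.symm h2).symm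

theorem exists_a2 (M S : Finset ℕ) : ∃ a : ℕ → ZMod 3,
    ∀ w : ZMod 3, w = 1 ∨ w = 2 → ∀ c : ℕ → ZMod 3,
      (∀ r ∈ S, ∑ s ∈ S, (c s - c r) * (wt M s * lam r s) - w * a r * c r = 0) →
      ∀ r ∈ S, c r = 0 := by
  let L : Matrix S S (ZMod 3) := fun r s => wt M s * lam r s -
    if r = s then ∑ t ∈ S, wt M t * lam r t else 0
  obtain ⟨a', h1, h2⟩ := Pool.Agent.H198.CT.exists_diag L
  let a : ℕ → ZMod 3 := fun r => if h : r ∈ S then a' ⟨r, h⟩ else 0
  have ha : ∀ r : S, a r = a' r := fun r => dif_pos r.2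
  refine ⟨a, fun w hw c hc => ?_⟩
  have hsum : ∀ (b : S → ZMod 3) (r : S), ((L + Matrix.diagonal b).mulVec fun s => c s) r =
      ∑ s ∈ S, (c s - c r) * (wt M s * lam r s) + b r * c r := by
    intro b r
    rw [Matrix.add_mulVec, Pi.add_apply, Matrix.mulVec_diagonal]
    congr 1
    have e1 : L.mulVec (fun s : S => c s) r = ∑ s : S, (wt M s * lam r s * c s -
        if r = s then (∑ t ∈ S, wt M t * lam r t) * c s else 0) := by
      show ∑ s : S, (wt M s * lam r s - if r = s then ∑ t ∈ S, wt M t * lam r t else 0) * c s = _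
      refine Finset.sum_congr rfl fun s _ => ?_
      by_cases h : r = s
      · rw [if_pos h, if_pos h]
        ring
      · rw [if_neg h, if_neg h]
        ring
    rw [e1, Finset.sum_sub_distrib, Finset.sum_ite_eq, if_pos (Finset.mem_univ _)]
    rw [Finset.sum_coe_sort S (fun s => wt M s * lam r s * c s), Finset.sum_mul,
      ← Finset.sum_sub_distrib]
    refine Finset.sum_congr rfl fun s _ => ?_
    ring
  have key : ∀ b : S → ZMod 3, (L + Matrix.diagonal b).det ≠ 0 → (∀ r : S, b r = -(w * a r)) →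
      ∀ r ∈ S, c r = 0 := by
    intro b hb hb2 r hr
    have h3 : (fun s : S => c s) = 0 := by
      by_contra h4
      refine hb (Matrix.exists_mulVec_eq_zero_iff.1 ⟨_, h4, ?_⟩)
      funext s
      rw [hsum, hb2]
      have h5 := hc s s.2
      rw [Pi.zero_apply, ← h5]
      ring
    exact congrFun h3 (⟨r, hr⟩ : S)
  rcases hw with rfl | rfl
  · refine key _ h2 fun r => ?_
    rw [ha]
    ring
  · refine key _ h1 fun r => ?_
    rw [ha]
    have h6 : ∀ x : ZMod 3, x = -(2 * x) := by decide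
    exact h6 _

theorem nosplit_ext2 (hL : LamP) {D D' : ℕ} (hD' : Cls D') {F : Finset ℕ} {q : ℕ}
    (hpf : D'.primeFactors = D.primeFactors ∪ F) (hdisj : Disjoint D.primeFactors F)
    (hw : ∀ s ∈ D.primeFactors, wt (MD D') s = wt (MD D) s) (hq : q ∈ F)
    (h1 : ∀ s ∈ D.primeFactors, s % 3 = 1) (a : ℕ → ZMod 3)
    (ha : ∀ w : ZMod 3, w = 1 ∨ w = 2 → ∀ c : ℕ → ZMod 3,
      (∀ r ∈ D.primeFactors,
        ∑ s ∈ D.primeFactors, (c s - c r) * (wt (MD D) s * lam r s) - w * a r * c r = 0) →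
      ∀ r ∈ D.primeFactors, c r = 0)
    (hF : ∀ p ∈ F, p ≠ q → p % 3 = 1 ∧ lam p q ≠ 0 ∧ (∀ s ∈ D.primeFactors, lam p s = 0) ∧
      ∀ p' ∈ F, p' ≠ p → p' ≠ q → lam p p' = 0)
    (hS : ∀ s ∈ D.primeFactors, lam s q = a s ∧ ∀ p ∈ F, p ≠ q → lam s p = 0) :
    NoSplit D' := by
  refine Pool.Agent.R419.CF.NS.nosplit_of_gdw hL hD' fun c hc => ?_
  have hcF : ∀ p ∈ F, c p = c q := by
    intro p hp
    by_cases hpq : p = q
    · rw [hpq]
    obtain ⟨g1, g2, g3, g4⟩ := hF p hp hpq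
    have h := hc p (by rw [hpf]; exact mem_union_right _ hp) g1
    rw [hpf, sum_union hdisj, Finset.sum_eq_zero (s := D.primeFactors), zero_add,
      Finset.sum_eq_single_of_mem q hq] at h
    · rcases mul_eq_zero.1 h with h5 | h5
      · exact (sub_eq_zero.1 h5).symm
      · exfalso
        rcases mul_eq_zero.1 h5 with h6 | h6
        · exact wt_ne _ _ h6
        · exact g2 h6
    · intro p' hp' hpq'
      by_cases hpp : p' = p
      · rw [hpp, sub_self, zero_mul]
      · rw [g4 p' hp' hpp hpq', mul_zero, mul_zero]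
    · intro s hs
      rw [g3 s hs, mul_zero, mul_zero]
  have hcS : ∀ r ∈ D.primeFactors, c r - c q = 0 := by
    refine ha (wt (MD D') q) (wt_cases _ _) (fun x => c x - c q) ?_
    intro r hr
    have h := hc r (by rw [hpf]; exact mem_union_left _ hr) (h1 r hr)
    rw [hpf, sum_union hdisj, Finset.sum_eq_single_of_mem (s := F) q hq, (hS r hr).1] at h
    · rw [← h, sub_eq_add_neg]
      congr 1
      · refine sum_congr rfl fun s hs => ?_
        rw [hw s hs]
        ring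
      · ring
    · intro p hp hpp
      rw [(hS r hr).2 p hp hpp, mul_zero, mul_zero]
  have hall : ∀ r ∈ D'.primeFactors, c r = c q := by
    intro r hr
    rw [hpf, mem_union] at hr
    rcases hr with hr | hr
    · exact sub_eq_zero.1 (hcS r hr)
    · exact hcF r hr
  intro r hr s hs
  rw [hall r hr, hall s hs]

end Pool.Agent.H198.CT2
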